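import Pool.Agent.H932R4.CMO.Stmts
import Pool.Agent.H992R3.MO.T5b

set_option autoImplicit false

open Finset Filter Topology

namespace Pool.Agent.H127R3.CMO

open Pool.Agent.H932R4.CMO
open Pool.Agent.H992R3.MO (ev2)

theorem t5b : T5b := by
  intro θ κ hθ hθ1 hκ N₀ hN₀
  have hlog3 : 1 < Real.log 3 := by
    rw [Real.lt_log_iff_exp_lt (by norm_num)]
    have := Real.exp_one_lt_d9
    linarith
  obtain ⟨r, hr⟩ : ∃ r : ℝ, r = 1 / (Real.log 3) ^ 2 := ⟨_, rfl⟩
  have hr0 : 0 < r := by rw [hr]; positivity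
  have hr1 : r < 1 := by
    rw [hr, div_lt_one (by positivity)]
    nlinarith
  obtain ⟨a, ha⟩ : ∃ a : ℝ, a = - Real.log r := ⟨_, rfl⟩
  have ha0 : 0 < a := by
    rw [ha]
    have := Real.log_neg hr0 hr1
    linarith
  have E1 : ∀ᶠ L : ℝ in atTop, L ^ (-((1:ℝ)/5)) ≤ κ := by
    have := (tendsto_rpow_neg_atTop (show (0:ℝ) < 1/5 by norm_num)).eventually
      (gt_mem_nhds hκ)
    filter_upwards [this] with L hL using hL.le
  have E2 := ev2 (a * (θ / 2)) κ (by positivity) hκ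
  have E3 : ∀ᶠ L : ℝ in atTop, L ^ (-((1:ℝ)/5)) ≤ κ ∧
      Real.exp (-(a * (θ / 2) * L ^ ((1:ℝ)/5))) ≤ κ / L ^ 3 ∧ 1 ≤ L := by
    filter_upwards [E1, E2, eventually_ge_atTop (1:ℝ)] with L h1 h2 h3 using ⟨h1, h2, h3⟩
  have E4 : ∀ᶠ X : ℕ in atTop, (Real.log X) ^ (-((1:ℝ)/5)) ≤ κ ∧
      Real.exp (-(a * (θ / 2) * (Real.log X) ^ ((1:ℝ)/5))) ≤ κ / (Real.log X) ^ 3 ∧
        1 ≤ Real.log X :=
    (Real.tendsto_log_atTop.comp tendsto_natCast_atTop_atTop).eventually E3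
  obtain ⟨X₁, hX₁⟩ := eventually_atTop.1 E4
  refine ⟨max X₁ 3, le_max_right _ _, ?_⟩
  intro X n hX hn1 hn2 hq
  obtain ⟨e1, e2, e3⟩ := hX₁ X ((le_max_left _ _).trans hX)
  have hX3 : 3 ≤ X := (le_max_right _ _).trans hX
  obtain ⟨L, hL⟩ : ∃ L : ℝ, L = Real.log X := ⟨_, rfl⟩
  rw [← hL] at e1 e2 e3 ⊢
  have hL0 : 0 < L := by linarith
  unfold bw
  split_ifs with hsq
  swap
  · positivity
  obtain ⟨hn0, hp⟩ := hsq
  have hXpos : (0:ℝ) < X := by exact_mod_cast (by omega : 0 < X)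
  have hprodw : n.factorization.prod (fun p k => (1 / (Real.log (p : ℝ)) ^ 2) ^ k) =
      ∏ p ∈ n.primeFactors, (1 / (Real.log (p : ℝ)) ^ 2) ^ n.factorization p := rfl
  rw [hprodw]
  obtain ⟨k, hk⟩ : ∃ k : ℕ → ℕ, k = fun p => n.factorization p := ⟨_, rfl⟩
  have hke : ∀ p, n.factorization p = k p := fun p => by rw [hk]
  simp only [hke]
  have hk1 : ∀ p ∈ n.primeFactors, 1 ≤ k p := by
    intro p hpm
    rw [← hke]
    exact (Nat.prime_of_mem_primeFactors hpm).factorization_pos_of_dvd hn0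
      (Nat.dvd_of_mem_primeFactors hpm)
  have hnprod : ∏ p ∈ n.primeFactors, (p : ℝ) ^ k p = n := by
    have h1 : ∏ p ∈ n.primeFactors, p ^ n.factorization p = n :=
      Nat.prod_factorization_pow_eq_self hn0
    have h2 := congrArg (Nat.cast : ℕ → ℝ) h1
    rw [← h2]
    push_cast
    simp only [hke]
  -- the factors
  have hlogp : ∀ p ∈ n.primeFactors, Real.log 3 ≤ Real.log p := by
    intro p hpm
    apply Real.log_le_log (by norm_num)
    exact_mod_cast hN₀.trans (hp p hpm)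
  have hf0 : ∀ p ∈ n.primeFactors, 0 ≤ (1 / (Real.log p) ^ 2) ^ k p := by
    intro p hpm; positivity
  have hfr' : ∀ p ∈ n.primeFactors, 1 / (Real.log p) ^ 2 ≤ r := by
    intro p hpm
    rw [hr]
    apply one_div_le_one_div_of_le (by positivity)
    exact pow_le_pow_left₀ (by linarith) (hlogp p hpm) 2
  have hfr : ∀ p ∈ n.primeFactors, (1 / (Real.log p) ^ 2) ^ k p ≤ r ^ k p := by
    intro p hpm
    exact pow_le_pow_left₀ (by positivity) (hfr' p hpm) _
  have hf1 : ∀ p ∈ n.primeFactors, (1 / (Real.log p) ^ 2) ^ k p ≤ 1 := fun p hpm =>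
    pow_le_one₀ (by positivity) ((hfr' p hpm).trans hr1.le)
  obtain ⟨T, hT⟩ : ∃ T : ℝ, T = L ^ ((4:ℝ)/5) := ⟨_, rfl⟩
  have hT0 : 0 < T := by rw [hT]; positivity
  have hT1 : 1 ≤ T := by rw [hT]; exact Real.one_le_rpow e3 (by norm_num)
  classical
  set B := n.primeFactors.filter (fun p : ℕ => T ≤ Real.log p) with hB
  have hBsub : B ⊆ n.primeFactors := Finset.filter_subset _ _
  rw [← Finset.prod_sdiff hBsub]
  set R := n.primeFactors \ B with hR
  rcases Nat.lt_or_ge 1 (∑ p ∈ B, k p) with h1 | h1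
  · have g1 : ∏ p ∈ R, (1 / (Real.log (p : ℝ)) ^ 2) ^ k p ≤ 1 :=
      Finset.prod_le_one (fun p hpm => hf0 p (Finset.mem_sdiff.1 hpm).1)
        (fun p hpm => hf1 p (Finset.mem_sdiff.1 hpm).1)
    have g2 : ∀ p : ℕ, T ≤ Real.log p → 1 / (Real.log p) ^ 2 ≤ 1 / T ^ 2 := by
      intro p hpT
      apply one_div_le_one_div_of_le (by positivity)
      exact pow_le_pow_left₀ hT0.le hpT 2
    have g3 : ∏ p ∈ B, (1 / (Real.log (p : ℝ)) ^ 2) ^ k p ≤ 1 / T ^ 2 * (1 / T ^ 2) := by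
      calc ∏ p ∈ B, (1 / (Real.log (p : ℝ)) ^ 2) ^ k p ≤ ∏ p ∈ B, (1 / T ^ 2) ^ k p :=
            Finset.prod_le_prod (fun p hpm => hf0 p (hBsub hpm))
              (fun p hpm => pow_le_pow_left₀ (by positivity)
                (g2 p (Finset.mem_filter.1 hpm).2) _)
        _ = (1 / T ^ 2) ^ (∑ p ∈ B, k p) := Finset.prod_pow_eq_pow_sum _ _ _
        _ ≤ (1 / T ^ 2) ^ 2 := by
            apply pow_le_pow_of_le_one (by positivity) _ h1
            rw [div_le_one (by positivity)]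
            nlinarith
        _ = _ := by ring
    have g4 : 1 / T ^ 2 * (1 / T ^ 2) = L ^ (-((1:ℝ)/5)) / L ^ 3 := by
      have : T ^ 4 = L ^ 3 * L ^ ((1:ℝ)/5) := by
        rw [hT, ← Real.rpow_natCast (L ^ ((4:ℝ)/5)) 4, ← Real.rpow_mul hL0.le,
          ← Real.rpow_natCast L 3, ← Real.rpow_add hL0]
        norm_num
      rw [Real.rpow_neg hL0.le]
      have hl : L ^ ((1:ℝ)/5) ≠ 0 := (Real.rpow_pos_of_pos hL0 _).ne'
      rw [div_mul_div_comm, ← pow_add, this]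
      field_simp
    calc (∏ p ∈ R, (1 / (Real.log (p : ℝ)) ^ 2) ^ k p) *
          ∏ p ∈ B, (1 / (Real.log (p : ℝ)) ^ 2) ^ k p
        ≤ 1 * (1 / T ^ 2 * (1 / T ^ 2)) := mul_le_mul g1 g3
          (Finset.prod_nonneg fun p hpm => hf0 p (hBsub hpm)) (by norm_num)
      _ = L ^ (-((1:ℝ)/5)) / L ^ 3 := by rw [one_mul, g4]
      _ ≤ κ / L ^ 3 := by gcongr
  · obtain ⟨K, hK⟩ : ∃ K : ℕ, K = ∑ p ∈ R, k p := ⟨_, rfl⟩
    have g1 : ∏ p ∈ B, (1 / (Real.log (p : ℝ)) ^ 2) ^ k p ≤ 1 :=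
      Finset.prod_le_one (fun p hpm => hf0 p (hBsub hpm)) (fun p hpm => hf1 p (hBsub hpm))
    have g2 : ∏ p ∈ R, (1 / (Real.log (p:ℝ)) ^ 2) ^ k p ≤ r ^ K :=
      (Finset.prod_le_prod (fun p hpm => hf0 p (Finset.mem_sdiff.1 hpm).1)
        (fun p hpm => hfr p (Finset.mem_sdiff.1 hpm).1)).trans
          (by rw [Finset.prod_pow_eq_pow_sum, hK])
    have hprod : (∏ p ∈ R, (p:ℝ) ^ k p) * ∏ p ∈ B, (p:ℝ) ^ k p = n := by
      rw [hR, Finset.prod_sdiff hBsub, hnprod]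
    have hRgt : (X:ℝ) ^ (θ / 2) < ∏ p ∈ R, (p:ℝ) ^ k p := by
      have hBcard : B.card ≤ ∑ p ∈ B, k p := by
        rw [Finset.card_eq_sum_ones]
        exact Finset.sum_le_sum fun p hpm => hk1 p (hBsub hpm)
      rcases Nat.lt_or_ge 0 B.card with h0 | h0
      · obtain ⟨q, hqB⟩ := Finset.card_eq_one.1 (by omega : B.card = 1)
        have hqm : q ∈ n.primeFactors := hBsub (by rw [hqB]; simp)
        have hq0 : (0:ℝ) < q := by
          exact_mod_cast (Nat.prime_of_mem_primeFactors hqm).pos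
        have hkq : k q = 1 := by
          rw [hqB, Finset.sum_singleton] at h1
          have := hk1 q hqm
          omega
        have := hq q hqm
        rw [hqB, Finset.prod_singleton, hkq, pow_one] at hprod
        rwa [← hprod, mul_div_assoc, div_self hq0.ne', mul_one] at this
      · have hB0 : B = ∅ := Finset.card_eq_zero.1 (by omega)
        rw [hB0, Finset.prod_empty, mul_one] at hprod
        rw [hprod]
        have h5 : (X:ℝ) ^ (θ / 2) ≤ (X:ℝ) ^ (1:ℝ) :=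
          Real.rpow_le_rpow_of_exponent_le (by exact_mod_cast (by omega : 1 ≤ X)) (by linarith)
        rw [Real.rpow_one] at h5
        have h6 : (X:ℝ) < n := by exact_mod_cast hn1
        linarith
    have hlogR : θ / 2 * L < ∑ p ∈ R, (k p : ℝ) * Real.log p := by
      have h7 : Real.log (∏ p ∈ R, (p:ℝ) ^ k p) = ∑ p ∈ R, (k p : ℝ) * Real.log p := by
        rw [Real.log_prod]
        · exact Finset.sum_congr rfl fun p _ => Real.log_pow _ _
        · intro p hpm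
          have h8 := (Nat.prime_of_mem_primeFactors (Finset.mem_sdiff.1 hpm).1).pos
          have h9 : (p : ℝ) ≠ 0 := by exact_mod_cast h8.ne'
          exact pow_ne_zero _ h9
      rw [← h7, hL, ← Real.log_rpow hXpos]
      exact Real.log_lt_log (Real.rpow_pos_of_pos hXpos _) hRgt
    have hsumle : ∑ p ∈ R, (k p : ℝ) * Real.log (p:ℝ) ≤ K * T := by
      rw [hK]
      push_cast
      rw [Finset.sum_mul]
      apply Finset.sum_le_sum
      intro p hpm
      rw [hR, Finset.mem_sdiff, hB, Finset.mem_filter, not_and, not_le] at hpm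
      exact mul_le_mul_of_nonneg_left (hpm.2 hpm.1).le (Nat.cast_nonneg _)
    have hcard : θ / 2 * L ^ ((1:ℝ)/5) < K := by
      have h9 : L = L ^ ((1:ℝ)/5) * T := by
        rw [hT, ← Real.rpow_add hL0]
        norm_num
      have h10 : θ / 2 * L ^ ((1:ℝ)/5) * T < K * T := by
        calc θ / 2 * L ^ ((1:ℝ)/5) * T = θ / 2 * (L ^ ((1:ℝ)/5) * T) := by ring
          _ = θ / 2 * L := by rw [← h9]
          _ < K * T := hlogR.trans_le hsumle
      exact lt_of_mul_lt_mul_right h10 hT0.le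
    have hpow : r ^ K ≤ Real.exp (-(a * (θ / 2) * L ^ ((1:ℝ)/5))) := by
      have h11 : r ^ K = Real.exp (-(a * K)) := by
        rw [ha, ← Real.rpow_natCast, Real.rpow_def_of_pos hr0]
        congr 1
        ring
      rw [h11]
      apply Real.exp_le_exp.2
      have : a * (θ / 2 * L ^ ((1:ℝ)/5)) ≤ a * K := mul_le_mul_of_nonneg_left hcard.le ha0.le
      linarith
    calc (∏ p ∈ R, (1 / (Real.log (p:ℝ)) ^ 2) ^ k p) *
          ∏ p ∈ B, (1 / (Real.log (p:ℝ)) ^ 2) ^ k p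
        ≤ r ^ K * 1 := mul_le_mul g2 g1
          (Finset.prod_nonneg fun p hpm => hf0 p (hBsub hpm)) (by positivity)
      _ ≤ κ / L ^ 3 := by rw [mul_one]; exact hpow.trans e2

end Pool.Agent.H127R3.CMO
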